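import Mathlib
import Pool.Agent.Helper923.Refine
import Pool.Agent.H208F.Par
import Pool.Agent.H208E.Fin67

set_option autoImplicit false

namespace Pool.Agent.Results.MP_574c26_nt.TwoThirds

open Finset Pool.Agent.H208E Pool.Agent.H208F

/-- The restricted sumset: all sums of two distinct elements of `A`. -/
def restrictedSum (A : Finset ℕ) : Finset ℕ := A.offDiag.image (fun p => p.1 + p.2)

/-- `P k N`: for every partition of `{1, …, N}` into `k` nonempty pairwise disjoint parts the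
union of the restricted sumsets of the parts has at least `N / 10` elements. -/
def P (k N : ℕ) : Prop :=
  ∀ A : Fin k → Finset ℕ, (∀ i, (A i).Nonempty) → (∀ i j, i ≠ j → Disjoint (A i) (A j)) →
    univ.biUnion A = Icc 1 N →
    (N : ℝ) / 10 ≤ ((univ.biUnion fun i => restrictedSum (A i)).card : ℝ)

theorem mem_restrictedSum {A : Finset ℕ} {s : ℕ} :
    s ∈ restrictedSum A ↔ ∃ a ∈ A, ∃ b ∈ A, a ≠ b ∧ a + b = s := by
  simp only [restrictedSum, mem_image, mem_offDiag, Prod.exists]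
  constructor
  · rintro ⟨a, b, ⟨ha, hb, hab⟩, rfl⟩
    exact ⟨a, ha, b, hb, hab, rfl⟩
  · rintro ⟨a, ha, b, hb, hab, rfl⟩
    exact ⟨a, b, ⟨ha, hb, hab⟩, rfl⟩

/-- a colouring onto `Fin k` yields a partition; if its monochromatic sums lie in a set with
fewer than `N/10` elements then `P k N` fails -/
theorem not_P_of_colouring {k N : ℕ} (c : ℕ → Fin k) (T : Finset ℕ)
    (hs : ∀ i, ∃ a, 1 ≤ a ∧ a ≤ N ∧ c a = i)
    (hT : (T.card : ℝ) < N / 10)
    (hc : ∀ a b, 1 ≤ a → a ≤ N → 1 ≤ b → b ≤ N → a ≠ b → c a = c b → a + b ∈ T) : ¬ P k N := by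
  classical
  intro hP
  have h := hP (fun i => (Icc 1 N).filter (fun a => c a = i)) ?_ ?_ ?_
  · have hle : (univ.biUnion fun i => restrictedSum ((Icc 1 N).filter (fun a => c a = i))).card
        ≤ T.card := by
      apply card_le_card
      intro s hs
      rw [mem_biUnion] at hs
      obtain ⟨i, _, hi⟩ := hs
      rw [mem_restrictedSum] at hi
      obtain ⟨a, ha, b, hb, hab, rfl⟩ := hi
      simp only [mem_filter, mem_Icc] at ha hb
      exact hc a b ha.1.1 ha.1.2 hb.1.1 hb.1.2 hab (by rw [ha.2, hb.2])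
    have : ((univ.biUnion fun i => restrictedSum ((Icc 1 N).filter (fun a => c a = i))).card : ℝ)
        ≤ T.card := by exact_mod_cast hle
    linarith
  · intro i
    obtain ⟨a, h1, h2, h3⟩ := hs i
    exact ⟨a, by simp [h1, h2, h3]⟩
  · intro i j hij
    rw [disjoint_left]
    intro a ha hb
    simp only [mem_filter] at ha hb
    exact hij (by rw [← ha.2, ← hb.2])
  · ext a
    simp only [mem_biUnion, mem_univ, true_and, mem_filter]
    constructor
    · rintro ⟨i, h, _⟩; exact h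
    · intro h; exact ⟨c a, h, rfl⟩

/-- `P k N` fails for all `k ≥ exp (C (log N)^{2/3} log log N)` -/
theorem result : ∃ C : ℝ, ∀ᶠ N : ℕ in Filter.atTop, ∀ k : ℕ, k ≤ N →
    Real.exp (C * (Real.log N) ^ ((2 : ℝ) / 3) * Real.log (Real.log N)) ≤ k →
    ¬ P k N := by
  refine ⟨1200, ?_⟩
  have hlog : Filter.Tendsto (fun N : ℕ => Real.log (N : ℝ)) Filter.atTop Filter.atTop :=
    Real.tendsto_log_atTop.comp tendsto_natCast_atTop_atTop
  have hll := Real.tendsto_log_atTop.comp hlog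
  filter_upwards [log_large (8 ^ 5), hlog.eventually_ge_atTop 2, hll.eventually_ge_atTop 1,
    Filter.eventually_ge_atTop 1] with N hL hl2 hll1 hN1 k hkN hk
  simp only [Function.comp] at hll1
  set l : ℝ := Real.log (N : ℝ) with hl
  have hL0 : Nat.log 2 N ≠ 0 := by
    have : 0 < 8 ^ 5 := by norm_num
    omega
  obtain ⟨g, hgdef⟩ : ∃ g, g = Nat.log 8 (Nat.log 2 N) := ⟨_, rfl⟩
  have hg1 : 8 ^ g ≤ Nat.log 2 N := by rw [hgdef]; exact Nat.pow_log_le_self 8 hL0
  have hg2 : Nat.log 2 N < 8 ^ (g + 1) := by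
    rw [hgdef]; exact Nat.lt_pow_succ_log_self (by norm_num) _
  have hg5 : 5 ≤ g := by rw [hgdef]; exact Nat.le_log_of_pow_le (by norm_num) hL
  obtain ⟨κ, hκ, c, T, hcard, hT, hc⟩ := main_nat hg5 hg1 hg2
    (Nat.pow_log_le_self 2 (by omega)) (Nat.lt_pow_succ_log_self (by norm_num) N)
  have hl0 : 0 < l := by linarith
  have hLl : ((Nat.log 2 N : ℕ) : ℝ) ≤ 2 * l := log_le hN1
  have h8 : (8 : ℝ) ^ g ≤ 2 * l := by
    have : ((8 ^ g : ℕ) : ℝ) ≤ (Nat.log 2 N : ℕ) := by exact_mod_cast hg1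
    push_cast at this
    linarith
  have h4 : (4 : ℝ) ^ g ≤ 2 * l ^ ((2 : ℝ) / 3) := by
    have h1 : (4 : ℝ) ^ g = ((8 : ℝ) ^ g) ^ ((2 : ℝ) / 3) := by
      have e8 : (8 : ℝ) = 2 ^ (3 : ℕ) := by norm_num
      have e4 : (4 : ℝ) = 2 ^ (2 : ℕ) := by norm_num
      rw [e8, e4, ← pow_mul, ← pow_mul, ← Real.rpow_natCast, ← Real.rpow_natCast,
        ← Real.rpow_mul (by norm_num)]
      congr 1
      push_cast
      ring
    rw [h1]
    calc ((8 : ℝ) ^ g) ^ ((2 : ℝ) / 3) ≤ (2 * l) ^ ((2 : ℝ) / 3) :=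
          Real.rpow_le_rpow (by positivity) h8 (by norm_num)
      _ = 2 ^ ((2 : ℝ) / 3) * l ^ ((2 : ℝ) / 3) := Real.mul_rpow (by norm_num) hl0.le
      _ ≤ 2 * l ^ ((2 : ℝ) / 3) := by
          have h2 : (2 : ℝ) ^ ((2 : ℝ) / 3) ≤ 2 ^ (1 : ℝ) :=
            Real.rpow_le_rpow_of_exponent_le (by norm_num) (by norm_num)
          rw [Real.rpow_one] at h2
          have h3 : 0 ≤ l ^ ((2 : ℝ) / 3) := by positivity
          exact mul_le_mul_of_nonneg_right h2 h3
  have hlog2 := Real.log_two_gt_d9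
  have hlog2' := Real.log_two_lt_d9
  have hgl : (g : ℝ) ≤ Real.log l := by
    have h2 := Real.log_le_log (by positivity) h8
    have e8 : (8 : ℝ) = 2 ^ (3 : ℕ) := by norm_num
    rw [Real.log_pow, Real.log_mul (by norm_num) hl0.ne', e8, Real.log_pow] at h2
    push_cast at h2
    have hg0 : (0 : ℝ) ≤ g := Nat.cast_nonneg _
    nlinarith
  have hcardk : Fintype.card κ ≤ k := by
    have h1 : ((Fintype.card κ : ℕ) : ℝ) ≤ k := by
      refine le_trans ?_ hk
      have h2 : ((Fintype.card κ : ℕ) : ℝ) ≤ (2 : ℝ) ^ (600 * g * 4 ^ g) := by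
        exact_mod_cast hcard
      refine h2.trans ?_
      have e2 : (2 : ℝ) ^ (600 * g * 4 ^ g) =
          Real.exp (((600 * g * 4 ^ g : ℕ) : ℝ) * Real.log 2) := by
        rw [Real.exp_nat_mul, Real.exp_log (by norm_num)]
      rw [e2, Real.exp_le_exp]
      push_cast
      calc 600 * (g : ℝ) * (4 : ℝ) ^ g * Real.log 2
          ≤ 600 * Real.log l * (2 * l ^ ((2 : ℝ) / 3)) * 1 := by
            gcongr
            linarith
        _ = 1200 * l ^ ((2 : ℝ) / 3) * Real.log l := by ring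
    exact_mod_cast h1
  have hk0 : 0 < k := by
    have h1 := lt_of_lt_of_le (Real.exp_pos _) hk
    exact_mod_cast h1
  obtain ⟨c', hs', hc'⟩ := Pool.Agent.Helper923.Refine.exists_surj N k hcardk hk0 hkN c
  apply not_P_of_colouring c' T hs' hT
  intro a b ha1 ha2 hb1 hb2 hab h
  exact hc a ha2 b hb2 hab (hc' a b ha1 ha2 hb1 hb2 h)

end Pool.Agent.Results.MP_574c26_nt.TwoThirds
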